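import Pool.Agent.Q314.GF.UndMain

/-!
# Family equivalence of context-free grammar forms is undecidable
-/

set_option autoImplicit false

namespace Pool.Agent.Results.MP_3cd25e_lc.FamilyEquivalence

open Pool.Agent.Q314.GF

/-- There is a context-free grammar `G₁` without productions `A → λ` such that no algorithm
decides, given a context-free grammar `G₂` without productions `A → λ`, whether the grammatical
families of `G₁` and `G₂` are equal. In particular no algorithm decides this for given pairs. -/
theorem result :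
    (∃ G₁ : Gram, G₁.LambdaFree ∧ ¬ ∃ c : Gram → Bool, Computable c ∧
      ∀ G₂ : Gram, G₂.LambdaFree → (c G₂ = true ↔ Family G₁ = Family G₂)) ∧
    ¬ ∃ c : Gram × Gram → Bool, Computable c ∧ ∀ G₁ G₂ : Gram, G₁.LambdaFree → G₂.LambdaFree →
      (c (G₁, G₂) = true ↔ Family G₁ = Family G₂) := by
  refine ⟨undecidable_fixed, ?_⟩
  rintro ⟨c, hc, h⟩
  obtain ⟨G₁, h1, h2⟩ := undecidable_fixed
  exact h2 ⟨fun G₂ => c (G₁, G₂), hc.comp (Computable.pair (Computable.const _) Computable.id),
    fun G₂ hG₂ => h G₁ G₂ h1 hG₂⟩

end Pool.Agent.Results.MP_3cd25e_lc.FamilyEquivalence
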